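import Pool.Agent.Helper1.KA.General
import Pool.Agent.Helper67.KL.Mod0

set_option autoImplicit false

/-!
Project KA (MP_0b9e0b_ag), module KA-7.
-/

namespace Pool.Agent.Helper67.KA

open Pool.Agent.Helper16 Pool.Agent.HC Pool.Agent.Helper1.KA
open Pool.Agent.Helper1.KL (Var VarF Key key fld spec cyc relations rat CH coef Idx)
open Pool.Agent.Helper1.KL (aff xc yc tr ec red xpt perp Prp ratf Vert Con At0 Quo cls IT RT)
open Pool.Agent.Helper67.KL (mp getD_mp key_mp fld_mp trdeg_fld_mp exists_own cast_map tr_mp
  exists_alg charP_of cast_pow' tr_neg_tr fld_tr_le fld_tr aff_tr at0_C at0_C_add_X ec_zero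
  essFinite_fld xc_mp)

/-! ### Points with given affine coordinates -/

section

variable {k : Type} [Field k] {p a : ℕ} [Fact p.Prime] {n : ℕ} {c : Fin n → k} {r : ℕ}
  {I : Finset (Fin n)} {N : Type} [Field N] [Algebra (RatFunc k) N]
  {z : Fin n ⊕ Fin n → Option N}

omit [Fact p.Prime] in
theorem curve_none {t d : N} {x y : Option N} (h : Curve p a t d x y) (hx : x = none) :
    y = none := by
  rcases h with h | ⟨u, w, h, -⟩
  · exact h.2
  · rw [hx] at h
    cases h

omit [Fact p.Prime] in
/-- The affine coordinates. -/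
theorem good_in (h : Good p a c r I z) {i : Fin n} (hi : i ∈ I) :
    z (Sum.inl i) = some (xc z i) ∧ z (Sum.inr i) = some (yc z i) ∧
    yc z i ^ p - yc z i = algebraMap (RatFunc k) N RatFunc.X *
      algebraMap (RatFunc k) N (RatFunc.C (c i)) * xc z i ^ a + xc z i := by
  rcases h.mem.cases i with ⟨-, h1, -⟩ | h1
  · exact absurd h1 (h.aff i hi)
  · exact h1

omit [Fact p.Prime] in
theorem good_out (h : Good p a c r I z) {i : Fin n} (hi : i ∉ I) :
    z (Sum.inl i) = none ∧ z (Sum.inr i) = none :=
  ⟨h.inf i hi, curve_none (h.mem i) (h.inf i hi)⟩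

omit [Fact p.Prime] in
theorem fld_good (h : Good p a c r I z) :
    fld (RatFunc k) z = IntermediateField.adjoin (RatFunc k) (xc z '' I ∪ yc z '' I) := by
  unfold fld
  congr 1
  ext u
  constructor
  · rintro ⟨j | j, hj⟩
    · have hI : j ∈ I := by
        by_contra hcon
        rw [(good_out h hcon).1] at hj
        cases hj
      refine Or.inl ⟨j, hI, ?_⟩
      rw [xc, hj]
      rfl
    · have hI : j ∈ I := by
        by_contra hcon
        rw [(good_out h hcon).2] at hj
        cases hj
      refine Or.inr ⟨j, hI, ?_⟩
      rw [yc, hj]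
      rfl
  · rintro (⟨j, hj, rfl⟩ | ⟨j, hj, rfl⟩)
    · exact ⟨Sum.inl j, (good_in h hj).1⟩
    · exact ⟨Sum.inr j, (good_in h hj).2.1⟩

/-- The coordinates `y` are algebraic over the coordinates `x`. -/
theorem y_algebraic (h : Good p a c r I z) {i : Fin n} (hi : i ∈ I)
    (S : Set N) (hS : xc z i ∈ S) :
    IsAlgebraic (IntermediateField.adjoin (RatFunc k) S) (yc z i) := by
  obtain ⟨-, -, h4⟩ := good_in h hi
  set F := IntermediateField.adjoin (RatFunc k) S
  have hx : xc z i ∈ F := IntermediateField.subset_adjoin _ _ hS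
  have h5 : yc z i ^ p - yc z i ∈ F := by
    rw [h4]
    exact F.add_mem (F.mul_mem (F.mul_mem (F.algebraMap_mem _) (F.algebraMap_mem _))
      (pow_mem hx a)) hx
  have hp : 1 < p := (Fact.out : p.Prime).one_lt
  have hdeg : (Polynomial.X ^ p - Polynomial.X : Polynomial F).natDegree = p := by
    rw [Polynomial.natDegree_sub_eq_left_of_natDegree_lt]
    · simp
    · simpa using hp
  refine IsAlgebraic.of_aeval (Polynomial.X ^ p - Polynomial.X : Polynomial F) ?_ ?_ ?_
  · rw [hdeg]
    omega
  · rw [mem_nonZeroDivisors_iff_ne_zero, Polynomial.leadingCoeff_ne_zero]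
    intro h0
    rw [h0, Polynomial.natDegree_zero] at hdeg
    omega
  · rw [map_sub, map_pow, Polynomial.aeval_X]
    exact isAlgebraic_algebraMap (⟨_, h5⟩ : F)

theorem tdeg_good (h : Good p a c r I z) :
    tdeg (RatFunc k) (xc z '' (I : Set (Fin n))) = r := by
  have h1 := h.dim
  rw [fld_good h] at h1
  have hf : (xc z '' (I : Set (Fin n))).Finite := I.finite_toSet.image _
  have hg : (yc z '' (I : Set (Fin n))).Finite := I.finite_toSet.image _
  rw [← tdeg_union_of_algebraic hf hg, tdeg_eq_iff (hf.union hg)]
  · exact h1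
  · rintro _ ⟨i, hi, rfl⟩
    exact y_algebraic h hi _ ⟨i, hi, rfl⟩

end

section tr

variable {k : Type} [Field k] {p a : ℕ} [Fact p.Prime] [CharP k p] {n : ℕ} {c : Fin n → k} {r : ℕ}
  {N : Type} [Field N] [Algebra (RatFunc k) N]

theorem XV_tr (h : Fin n → ZMod p) {z : Fin n ⊕ Fin n → Option N} (hz : XV p a c N z) :
    XV p a c N (tr h z) := by
  have : CharP N p := charP_of k N p
  intro i
  rcases hz i with h1 | ⟨u, w, h1, h2, h3⟩
  · left
    refine ⟨h1.1, ?_⟩
    simp only [tr, h1.2, Option.map_none]
  · right
    refine ⟨u, w + (h i).cast, h1, ?_, ?_⟩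
    · simp only [tr, h2, Option.map_some]
    · rw [add_pow_char, cast_pow', ← h3]
      ring

/-- Points with less affine coordinates. -/
theorem SH_mem (H : Finset (Fin n → ZMod p)) {z : Fin n ⊕ Fin n → Option N} {m : ℕ}
    (hz : XV p a c N z) (hd : Algebra.trdeg (RatFunc k) (fld (RatFunc k) z) = r)
    (hm : (aff z).card < m) : SH p a c r H z ∈ GG p a c r m := by
  unfold SH
  refine sum_mem fun h _ => Submodule.subset_span ?_
  exact ⟨N, _, _, tr h z, XV_tr h hz, by rw [fld_tr]; exact hd, by rw [aff_tr]; exact hm, rfl⟩

end tr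

section main

variable {k : Type} [Field k] {p a : ℕ} [Fact p.Prime] [CharP k p] {n : ℕ} {c : Fin n → k} {r : ℕ}
  {I : Finset (Fin n)}

omit [CharP k p] in
theorem SS_mp {N N' : Type} [Field N] [Field N'] [Algebra (RatFunc k) N] [Algebra (RatFunc k) N']
    (φ : N →ₐ[RatFunc k] N') (ρ : Fin n → ZMod p) (z : Fin n ⊕ Fin n → Option N) :
    SS p a c r ρ (mp φ z) = SS p a c r ρ z := by
  unfold SS SH cl cls
  refine Finset.sum_congr rfl fun h _ => ?_
  rw [tr_mp φ, key_mp]

omit [CharP k p] [Fact p.Prime] in
theorem good_mp {N N' : Type} [Field N] [Field N'] [Algebra (RatFunc k) N]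
    [Algebra (RatFunc k) N'] (φ : N →ₐ[RatFunc k] N') (z : Fin n ⊕ Fin n → Option N)
    (h : Good p a c r I (mp φ z)) : Good p a c r I z where
  mem := (XV_map φ z).1 h.mem
  aff i hi h0 := h.aff i hi (by simp [mp, h0])
  inf i hi := by
    have := h.inf i hi
    simpa [mp] using this
  dim := by
    rw [← trdeg_fld_mp φ]
    exact h.dim

omit [CharP k p] in
/-- The coordinates of the moving point specialise to those of `z`. -/
theorem key_eq_of_res {N M : Type} [Field N] [Field M]
    [Algebra (RatFunc k) N] [Algebra (RatFunc k) M] (φ : N →ₐ[RatFunc k] M)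
    (v : Place (RatFunc k) M) {z : Fin n ⊕ Fin n → Option N} (hz : Good p a c r I z)
    {w : Fin n ⊕ Fin n → Option v.resField} (hw : Good p a c r I w)
    (h : ∀ i ∈ I, φ (xc z i) ∈ v.ring ∧ v.res (φ (xc z i)) = xc w i) :
    key (RatFunc k) (red (0 : Fin n → ZMod p) w) = key (RatFunc k) (red (0 : Fin n → ZMod p) z) := by
  classical
  set T : Set M := φ '' (xc z '' (I : Set (Fin n))) with hT
  have hTf : T.Finite := (I.finite_toSet.image _).image _
  have h1 : v.res '' T = xc w '' (I : Set (Fin n)) := by
    rw [hT, Set.image_image, Set.image_image]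
    exact Set.image_congr fun i hi => (h i hi).2
  have h2 : ∀ a ∈ IntermediateField.adjoin (RatFunc k) T, a ≠ 0 → v.val a = 1 := by
    intro a ha ha0
    by_contra hcon
    have h3 := tdeg_res_lt v hTf (by
      rintro _ ⟨_, ⟨i, hi, rfl⟩, rfl⟩
      exact (h i hi).1) ⟨a, ha, ha0, hcon⟩
    rw [h1, tdeg_good hw, hT, tdeg_image, tdeg_good hz] at h3
    exact lt_irrefl _ h3
  have h4 : ∀ j, φ ((red (0 : Fin n → ZMod p) z j).getD 0) ∈ v.ring ∧
      (red (0 : Fin n → ZMod p) w j).getD 0 = v.res (φ ((red (0 : Fin n → ZMod p) z j).getD 0)) ∧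
      φ ((red (0 : Fin n → ZMod p) z j).getD 0) ∈ IntermediateField.adjoin (RatFunc k) T := by
    rintro (i | u)
    · by_cases hi : i ∈ I
      · refine ⟨(h i hi).1, (h i hi).2.symm, ?_⟩
        exact IntermediateField.subset_adjoin _ _ ⟨_, ⟨i, hi, rfl⟩, rfl⟩
      · simp only [red, (good_out hz hi).1, (good_out hw hi).1, Option.getD_none, map_zero,
          v.res_zero]
        exact ⟨v.ring.zero_mem, trivial, zero_mem _⟩
    · simp only [red, ec_zero, Option.getD_some, map_zero, v.res_zero]
      exact ⟨v.ring.zero_mem, trivial, zero_mem _⟩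
  unfold key
  refine Prod.ext ?_ ?_
  · ext j
    rcases j with i | u
    · by_cases hi : i ∈ I
      · simp [red, (good_in hz hi).1, (good_in hw hi).1]
      · simp [red, (good_out hz hi).1, (good_out hw hi).1]
    · simp [red]
  · simp only
    ext P
    rw [RingHom.mem_ker, RingHom.mem_ker]
    have h5 : (fun j => (red (0 : Fin n → ZMod p) w j).getD 0) =
        fun j => v.res (φ ((red (0 : Fin n → ZMod p) z j).getD 0)) := funext fun j => (h4 j).2.1
    have h6 := aeval_res v (fun j => (h4 j).1) P
    have h7 : MvPolynomial.aeval (fun j => φ ((red (0 : Fin n → ZMod p) z j).getD 0)) P =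
        φ (MvPolynomial.aeval (fun j => (red (0 : Fin n → ZMod p) z j).getD 0) P) := by
      have := DFunLike.congr_fun (MvPolynomial.comp_aeval
        (fun j => (red (0 : Fin n → ZMod p) z j).getD 0) φ) P
      exact this.symm
    rw [h5, ← h6.2]
    constructor
    · intro h8
      by_contra h9
      have h10 : φ (MvPolynomial.aeval (fun j => (red (0 : Fin n → ZMod p) z j).getD 0) P) ≠ 0 :=
        (map_ne_zero_iff φ φ.injective).2 h9
      rw [← h7] at h10
      have h11 := h2 _ ?_ h10
      · rw [v.res_eq_zero_iff h6.1, h11] at h8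
        exact lt_irrefl _ h8
      · have h12 : MvPolynomial.aeval (fun j => φ ((red (0 : Fin n → ZMod p) z j).getD 0)) P ∈
            Algebra.adjoin (RatFunc k)
              (Set.range fun j => φ ((red (0 : Fin n → ZMod p) z j).getD 0)) := by
          rw [Algebra.adjoin_range_eq_range_aeval]
          exact ⟨P, rfl⟩
        refine (Algebra.adjoin_le (S := (IntermediateField.adjoin (RatFunc k) T).toSubalgebra)
          ?_) h12
        rintro _ ⟨j, rfl⟩
        exact (h4 j).2.2
    · intro h8
      rw [h7, h8, map_zero, v.res_zero]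


theorem main_aux (hHom : ModHom k p a c r) (hr : r < I.card) (d : ℕ) :
    ∀ D ⊆ I, (I \ D).card = d → ∀ (N : Type) [Field N] [Algebra (RatFunc k) N]
      (z : Fin n ⊕ Fin n → Option N), Good p a c r I z →
      tdeg (RatFunc k) (xc z '' ((I \ D : Finset (Fin n)) : Set (Fin n))) + D.card ≤ r →
      SS p a c r 0 z ∈ GG p a c r I.card := by
  classical
  induction d with
  | zero =>
    intro D hD hcard N _ _ z hz hP
    exfalso
    rw [Finset.card_eq_zero, Finset.sdiff_eq_empty_iff_subset] at hcard
    have := Finset.card_le_card hcard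
    omega
  | succ d ih =>
    intro D hD hcard N _ _ z hz hP
    have hc : (I \ D).card = I.card - D.card := Finset.card_sdiff_of_subset hD
    obtain ⟨i0, hi0, halg⟩ := exists_alg (K := RatFunc k) (xc z) (I \ D) (by omega)
    have hi0I : i0 ∈ I := (Finset.mem_sdiff.1 hi0).1
    have hi0D : i0 ∉ D := (Finset.mem_sdiff.1 hi0).2
    set N0 := fld (RatFunc k) z with hN0
    obtain ⟨z0, hz0⟩ : ∃ z0 : Fin n ⊕ Fin n → Option N0, mp N0.val z0 = z :=
      exists_own (K := RatFunc k) z
    let _ : Algebra k N0 := ((algebraMap (RatFunc k) N0).comp RatFunc.C).toAlgebra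
    have _ : IsScalarTower k (RatFunc k) N0 := IsScalarTower.of_algebraMap_eq' (by
      rw [RatFunc.algebraMap_eq_C]
      rfl)
    have hg0 : Good p a c r I z0 := good_mp N0.val z0 (by rw [hz0]; exact hz)
    rw [← hz0, SS_mp]
    have hxc : ∀ E : Set (Fin n), tdeg (RatFunc k) (xc z '' E) = tdeg (RatFunc k) (xc z0 '' E) := by
      intro E
      have h1 : xc z '' E = N0.val '' (xc z0 '' E) := by
        rw [Set.image_image]
        refine Set.image_congr fun i _ => ?_
        rw [← xc_mp N0.val z0 i, hz0]
      rw [h1, tdeg_image]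
    rw [hxc] at hP
    rw [hxc, hxc] at halg
    let x' : Fin n → RatFunc N0 := fun i =>
      if i = i0 then RatFunc.C (xc z0 i) + RatFunc.X else RatFunc.C (xc z0 i)
    refine hHom N0 I z0 0 ((RatFunc.C).comp (algebraMap (RatFunc k) N0)) x' 0 (GG p a c r I.card)
      (essFinite_fld z) hz.dim hg0 (fun _ _ => rfl) (fun _ => rfl) ?_ ?_ ?_ ?_ ?_ ?_
    · intro a
      rfl
    · exact at0_C _
    · intro i hi
      by_cases h1 : i = i0
      · simp only [x', if_pos h1]
        exact at0_C_add_X _
      · simp only [x', if_neg h1]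
        exact at0_C _
    · rw [ec_zero]
      have := at0_C (0 : N0)
      rwa [map_zero] at this
    · simp [zero_pow (Fact.out : p.Prime).ne_zero]
    · intro M _ _ j z' v hj hEss htr _ hXV hin hout hec hord hXVv hdv
      let φ : N0 →ₐ[RatFunc k] M :=
        { toRingHom := j.comp RatFunc.C
          commutes' := fun a => by
            change j (RatFunc.C (algebraMap (RatFunc k) N0 a)) = _
            rw [hj]
            rfl }
      have hφ : ∀ a : N0, φ a = j (RatFunc.C a) := fun a => rfl
      set w := spec v z' with hw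
      by_cases haff : ∃ i ∈ I, w (Sum.inr i) = none
      · left
        obtain ⟨i, hi, hwi⟩ := haff
        refine SH_mem _ hXVv hdv ?_
        refine Finset.card_lt_card ⟨?_, ?_⟩
        · intro l hl
          by_contra hcon
          have h1 : w (Sum.inl l) = none := by
            rw [hw]
            simp [spec, hout l hcon]
          have h2 := curve_none (hXVv l) h1
          simp only [aff, Finset.mem_filter, Finset.mem_univ, true_and] at hl
          exact hl h2
        · intro hsub
          have := hsub hi
          simp only [aff, Finset.mem_filter, Finset.mem_univ, true_and] at this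
          exact this hwi
      · push Not at haff
        have hgw : Good p a c r I w := ⟨hXVv, haff, fun i hi => by rw [hw]; simp [spec, hout i hi], hdv⟩
        have h1 : ∀ i ∈ I, j (x' i) ∈ v.ring ∧ v.res (j (x' i)) = xc w i := by
          intro i hi
          have h2 := (good_in hgw hi).1
          have h3 : w (Sum.inl i) = if j (x' i) ∈ v.ring then some (v.res (j (x' i))) else none := by
            rw [hw]
            simp [spec, (hin i hi).1]
          by_cases h4 : j (x' i) ∈ v.ring
          · rw [if_pos h4, h2] at h3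
            exact ⟨h4, (Option.some.inj h3).symm⟩
          · rw [if_neg h4, h2] at h3
            cases h3
        have hne : ∀ i ∈ I, i ≠ i0 → j (x' i) = φ (xc z0 i) := by
          intro i hi h2
          simp only [x', if_neg h2]
          rfl
        have heq : j (x' i0) = φ (xc z0 i0) + j RatFunc.X := by
          simp only [x', if_pos rfl]
          rw [map_add, hφ]
        have hX0 : j RatFunc.X ≠ 0 := (map_ne_zero j).2 RatFunc.X_ne_zero
        rcases lt_or_gt_of_ne hord with hlt | hgt
        · -- a pole
          left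
          have hval : 1 < v.val (j RatFunc.X) := (v.ord_neg_iff hX0).1 hlt
          have hx0 : φ (xc z0 i0) ≠ 0 := by
            intro h2
            have h3 : j (x' i0) = j RatFunc.X := by rw [heq, h2, zero_add]
            have h4 : v.val (j (x' i0)) ≤ 1 := (h1 i0 hi0I).1
            rw [h3] at h4
            exact absurd hval (not_lt.2 h4)
          have hbig : v.val (φ (xc z0 i0)) ≠ 1 := by
            intro h2
            have h3 : v.val (j (x' i0)) = v.val (j RatFunc.X) := by
              rw [heq, add_comm]
              exact v.val.map_add_eq_of_lt_left (by rw [h2]; exact hval)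
            have h4 : v.val (j (x' i0)) ≤ 1 := (h1 i0 hi0I).1
            rw [h3] at h4
            exact absurd hval (not_lt.2 h4)
          set E : Finset (Fin n) := (I \ D).erase i0 with hE
          set T : Set M := φ '' (xc z0 '' (E : Set (Fin n))) with hT
          have hTf : T.Finite := (E.finite_toSet.image _).image _
          have hEI : ∀ i ∈ E, i ∈ I ∧ i ≠ i0 := fun i hi =>
            ⟨(Finset.mem_sdiff.1 (Finset.mem_erase.1 hi).2).1, (Finset.mem_erase.1 hi).1⟩
          have hIns : xc z0 '' ((I \ D : Finset (Fin n)) : Set (Fin n)) =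
              insert (xc z0 i0) (xc z0 '' (E : Set (Fin n))) := by
            rw [← Set.image_insert_eq, ← Finset.coe_insert, hE, Finset.insert_erase hi0]
          have hal : IsAlgebraic (IntermediateField.adjoin (RatFunc k) T) (φ (xc z0 i0)) := by
            refine isAlgebraic_of_tdeg hTf ?_
            rw [hT, ← Set.image_insert_eq, tdeg_image, tdeg_image, ← hIns]
            exact halg
          have hnt : ∃ a ∈ IntermediateField.adjoin (RatFunc k) T, a ≠ 0 ∧ v.val a ≠ 1 := by
            by_contra hcon
            push Not at hcon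
            exact hbig (val_eq_one_of_algebraic_over v hcon hal hx0)
          have hlt2 := tdeg_res_lt v hTf (by
            rintro _ ⟨_, ⟨i, hi, rfl⟩, rfl⟩
            rw [← hne i (hEI i hi).1 (hEI i hi).2]
            exact (h1 i (hEI i hi).1).1) hnt
          have hres : v.res '' T = xc w '' (E : Set (Fin n)) := by
            rw [hT, Set.image_image, Set.image_image]
            refine Set.image_congr fun i hi => ?_
            rw [← hne i (hEI i hi).1 (hEI i hi).2]
            exact (h1 i (hEI i hi).1).2
          rw [hres, hT, tdeg_image] at hlt2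
          have hmono : tdeg (RatFunc k) (xc z0 '' (E : Set (Fin n))) ≤
              tdeg (RatFunc k) (xc z0 '' ((I \ D : Finset (Fin n)) : Set (Fin n))) :=
            tdeg_mono' ((Finset.finite_toSet _).image _) (Set.image_mono (by
              rw [hE]
              exact_mod_cast Finset.erase_subset _ _))
          have hID : I \ insert i0 D = E := by
            rw [hE]
            ext i
            simp only [Finset.mem_sdiff, Finset.mem_insert, Finset.mem_erase]
            tauto
          refine ih (insert i0 D) (Finset.insert_subset hi0I hD) ?_ v.resField w hgw ?_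
          · rw [hID, hE, Finset.card_erase_of_mem hi0, hcard]
            rfl
          · rw [hID, Finset.card_insert_of_notMem hi0D]
            omega
        · -- a zero
          right
          refine ⟨hgt, ?_⟩
          have hval : v.val (j RatFunc.X) < 1 := (v.ord_pos_iff hX0).1 hgt
          refine key_eq_of_res φ v hg0 hgw fun i hi => ?_
          by_cases h2 : i = i0
          · subst h2
            have h3 : φ (xc z0 i) = j (x' i) - j RatFunc.X := by
              rw [heq]
              ring
            have h4 : j RatFunc.X ∈ v.ring := hval.le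
            rw [h3]
            refine ⟨v.ring.sub_mem (h1 i hi).1 h4, ?_⟩
            rw [v.res_sub (h1 i hi).1 h4, (v.res_eq_zero_iff h4).2 hval, sub_zero]
            exact (h1 i hi).2
          · rw [← hne i hi h2]
            exact h1 i hi

/-- KL-7. -/
theorem mod0 (hHom : ModHom k p a c r) : Mod0 k p a c r := by
  intro N _ _ I z hr hz
  refine main_aux hHom hr (I \ ∅).card ∅ (Finset.empty_subset _) rfl N z hz ?_
  rw [Finset.sdiff_empty, tdeg_good hz, Finset.card_empty, add_zero]



end main

end Pool.Agent.Helper67.KA
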